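import Mathlib

/-!
# The numerical contradiction
-/

set_option autoImplicit false

namespace Pool.Agent.SulFew

theorem arith_int {e p a j b h : ℤ} (he : 1 ≤ e) (hep : e ≤ p) (hh : 0 ≤ h) (hb : 0 ≤ b)
    (hph : p + h = 2 * e + 1) (ha : 0 ≤ a) (hap : a ≤ p)
    (hA : 2 * b + 2 * e * p + p ≤ p * p + 2 * a * h) :
    (¬ (a + h + 1 ≤ j ∧ a * j ≤ e + 1 + b ∧ p * j ≤ (e + 1) * j + b)) ∧
    (¬ (a + 1 ≤ j ∧ (a + 1) * j ≤ e + 1 + b ∧ (p + 1) * j ≤ (e + 1) * j + b)) := by
  have hA' : 2 * b ≤ h * (2 * a - p) := by nlinarith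
  rcases hh.eq_or_lt with h0 | h1
  · subst h0
    have hb0 : b = 0 := by linarith
    subst hb0
    have hp : p = 2 * e + 1 := by linarith
    subst hp
    constructor
    · rintro ⟨h1, _, h3⟩
      nlinarith
    · rintro ⟨h1, _, h3⟩
      nlinarith
  · have h2 : p ≤ 2 * a := by
      by_contra hcon
      push Not at hcon
      nlinarith
    constructor
    · rintro ⟨h3, h4, _⟩
      have h5 : a * (a + h + 1) ≤ e + 1 + b := le_trans (mul_le_mul_of_nonneg_left h3 ha) h4
      have h6 : 2 * a * a + 2 * a + h * p ≤ p + h + 1 := by nlinarith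
      have h7 : 1 ≤ a := by linarith
      nlinarith
    · rintro ⟨h3, h4, _⟩
      have h5 : (a + 1) * (a + 1) ≤ e + 1 + b :=
        le_trans (mul_le_mul_of_nonneg_left h3 (by linarith)) h4
      have h6 : 2 * (a + 1) * (a + 1) ≤ p + h + 1 + h * (2 * a - p) := by nlinarith
      have h7 : h ≤ p + 1 := by linarith
      have h8 : h * (2 * a - p + 1) ≤ (p + 1) * (2 * a - p + 1) :=
        mul_le_mul_of_nonneg_right h7 (by linarith)
      obtain ⟨u, hu⟩ : ∃ u, u = 2 * a - p := ⟨_, rfl⟩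
      have hu0 : 0 ≤ u := by linarith
      have h9 : 2 * a = u + p := by linarith
      have h10 : 4 * ((a + 1) * (a + 1)) = (u + p + 2) * (u + p + 2) := by
        rw [← h9]; ring
      nlinarith [mul_nonneg hu0 hu0, mul_pos (show (0 : ℤ) < p by linarith) (show (0 : ℤ) < p by linarith)]

theorem arith {e p a lam j b h ε : ℕ} (he : 1 ≤ e) (hep : e ≤ p) (hph : p + h = 2 * e + 1)
    (hal : a + lam = p) (hA : 2 * b + 2 * e * p + p ≤ p * p + 2 * a * h) (hε : ε ≤ 1)
    (hB0 : ε = 0 → 2 * e + 2 ≤ lam + j) (hB1 : ε = 1 → 1 + p ≤ lam + j)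
    (hC : (a + ε) * j ≤ e + 1 + b) (hD : (p + ε) * j ≤ (e + 1) * j + b) : False := by
  have key := arith_int (e := e) (p := p) (a := a) (j := j) (b := b) (h := h)
    (by exact_mod_cast he) (by exact_mod_cast hep) (by positivity) (by positivity)
    (by exact_mod_cast hph) (by positivity) (by exact_mod_cast (by omega : a ≤ p))
    (by exact_mod_cast hA)
  interval_cases ε
  · refine key.1 ⟨?_, ?_, ?_⟩
    · have h1 := hB0 rfl
      have : a + h + 1 ≤ j := by omega
      exact_mod_cast this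
    · rw [add_zero] at hC
      exact_mod_cast hC
    · rw [add_zero] at hD
      exact_mod_cast hD
  · refine key.2 ⟨?_, ?_, ?_⟩
    · have h1 := hB1 rfl
      have : a + 1 ≤ j := by omega
      exact_mod_cast this
    · exact_mod_cast hC
    · exact_mod_cast hD

end Pool.Agent.SulFew
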