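import Mathlib

/-!
# Second out-neighbourhoods of vertices of minimum in-degree: basic counting

For a vertex `v` of an oriented graph, `lset v` is the set of vertices (other than `v`) that are
neither out-neighbours nor second out-neighbours of `v`, `yset v` the set of second out-neighbours,
`gset v` the set of non-neighbours.
-/

set_option autoImplicit false
set_option linter.unusedSectionVars false

namespace Pool.Agent.SulFew

open Finset

variable {V : Type*} [Fintype V] [DecidableEq V]

section defs
variable (adj : V → V → Prop) [DecidableRel adj]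

/-- The in-neighbours of `v`. -/
def nin (v : V) : Finset V := univ.filter fun u => adj u v

/-- The vertices other than `v` that are not out-neighbours of `v`. -/
def wset (v : V) : Finset V := univ.filter fun u => u ≠ v ∧ ¬ adj v u

/-- The second out-neighbours of `v`. -/
def yset (v : V) : Finset V :=
  univ.filter fun w => w ≠ v ∧ ¬ adj v w ∧ ∃ u, adj v u ∧ adj u w

/-- The vertices that are not reached from `v` in at most two steps. -/
def lset (v : V) : Finset V :=
  univ.filter fun w => w ≠ v ∧ ¬ adj v w ∧ ∀ u, adj v u → ¬ adj u w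

/-- The non-neighbours of `v`. -/
def gset (v : V) : Finset V := univ.filter fun w => w ≠ v ∧ ¬ adj v w ∧ ¬ adj w v

/-- The number of in-neighbours of `z` in `S`. -/
def inn (S : Finset V) (z : V) : ℕ := (S.filter fun w => adj w z).card

/-- The number of out-neighbours of `z` in `S`. -/
def out (S : Finset V) (z : V) : ℕ := (S.filter fun w => adj z w).card

/-- The number of elements of `S` other than `z` that are not in-neighbours of `z`. -/
def non (S : Finset V) (z : V) : ℕ := (S.filter fun w => w ≠ z ∧ ¬ adj w z).card

/-- `v` has minimum in-degree. -/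
def IsMin (v : V) : Prop := ∀ u, (nin adj v).card ≤ (nin adj u).card

end defs

variable {adj : V → V → Prop} [DecidableRel adj]

theorem irr (has : ∀ x y, adj x y → ¬ adj y x) (x : V) : ¬ adj x x := fun h => has x x h h

theorem mem_w {v u : V} : u ∈ wset adj v ↔ u ≠ v ∧ ¬ adj v u := by simp [wset]

theorem mem_y {v w : V} : w ∈ yset adj v ↔ w ≠ v ∧ ¬ adj v w ∧ ∃ u, adj v u ∧ adj u w := by
  simp [yset]

theorem mem_l {v w : V} : w ∈ lset adj v ↔ w ≠ v ∧ ¬ adj v w ∧ ∀ u, adj v u → ¬ adj u w := by
  simp [lset]

theorem mem_g {v w : V} : w ∈ gset adj v ↔ w ≠ v ∧ ¬ adj v w ∧ ¬ adj w v := by simp [gset]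

theorem mem_nin {v u : V} : u ∈ nin adj v ↔ adj u v := by simp [nin]

theorem disj_yl (v : V) : Disjoint (yset adj v) (lset adj v) := by
  rw [Finset.disjoint_left]
  intro a ha hb
  rw [mem_y] at ha
  rw [mem_l] at hb
  obtain ⟨u, hu1, hu2⟩ := ha.2.2
  exact hb.2.2 u hu1 hu2

theorem w_eq (v : V) : wset adj v = yset adj v ∪ lset adj v := by
  ext a
  rw [mem_union, mem_w, mem_y, mem_l]
  constructor
  · rintro ⟨h1, h2⟩
    by_cases h : ∃ u, adj v u ∧ adj u a
    · exact Or.inl ⟨h1, h2, h⟩
    · refine Or.inr ⟨h1, h2, ?_⟩
      intro u hu hua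
      exact h ⟨u, hu, hua⟩
  · rintro (h | h)
    · exact ⟨h.1, h.2.1⟩
    · exact ⟨h.1, h.2.1⟩

theorem card_w_yl (v : V) : (wset adj v).card = (yset adj v).card + (lset adj v).card := by
  rw [w_eq, card_union_of_disjoint (disj_yl v)]

theorem card_w_ng (has : ∀ x y, adj x y → ¬ adj y x) (v : V) :
    (wset adj v).card = (nin adj v).card + (gset adj v).card := by
  have h : wset adj v = nin adj v ∪ gset adj v := by
    ext a
    rw [mem_union, mem_w, mem_nin, mem_g]
    constructor
    · rintro ⟨h1, h2⟩
      by_cases h : adj a v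
      · exact Or.inl h
      · exact Or.inr ⟨h1, h2, h⟩
    · rintro (h | h)
      · refine ⟨?_, has _ _ h⟩
        rintro rfl
        exact irr has _ h
      · exact ⟨h.1, h.2.1⟩
  rw [h, card_union_of_disjoint]
  rw [Finset.disjoint_left]
  intro a ha hb
  rw [mem_nin] at ha
  rw [mem_g] at hb
  exact hb.2.2 ha

theorem card_mem (has : ∀ x y, adj x y → ¬ adj y x) {S : Finset V} {z : V} (hz : z ∈ S) :
    S.card = inn adj S z + 1 + non adj S z := by
  have h1 := Finset.card_filter_add_card_filter_not (s := S) (fun w => adj w z)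
  have h2 : S.filter (fun w => ¬ adj w z) = insert z (S.filter fun w => w ≠ z ∧ ¬ adj w z) := by
    ext a
    rw [mem_insert, mem_filter, mem_filter]
    constructor
    · rintro ⟨ha, hb⟩
      by_cases h : a = z
      · exact Or.inl h
      · exact Or.inr ⟨ha, h, hb⟩
    · rintro (rfl | h)
      · exact ⟨hz, irr has _⟩
      · exact ⟨h.1, h.2.2⟩
  have h3 : z ∉ S.filter fun w => w ≠ z ∧ ¬ adj w z := by
    rw [mem_filter]
    rintro ⟨_, h, _⟩
    exact h rfl
  rw [h2, card_insert_of_notMem h3] at h1
  unfold inn non
  omega

theorem card_mem_out (has : ∀ x y, adj x y → ¬ adj y x) {S : Finset V} {z : V} (hz : z ∈ S) :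
    S.card = out adj S z + 1 + (S.filter fun w => w ≠ z ∧ ¬ adj z w).card := by
  have h1 := Finset.card_filter_add_card_filter_not (s := S) (fun w => adj z w)
  have h2 : S.filter (fun w => ¬ adj z w) = insert z (S.filter fun w => w ≠ z ∧ ¬ adj z w) := by
    ext a
    rw [mem_insert, mem_filter, mem_filter]
    constructor
    · rintro ⟨ha, hb⟩
      by_cases h : a = z
      · exact Or.inl h
      · exact Or.inr ⟨ha, h, hb⟩
    · rintro (rfl | h)
      · exact ⟨hz, irr has _⟩
      · exact ⟨h.1, h.2.2⟩
  have h3 : z ∉ S.filter fun w => w ≠ z ∧ ¬ adj z w := by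
    rw [mem_filter]
    rintro ⟨_, h, _⟩
    exact h rfl
  rw [h2, card_insert_of_notMem h3] at h1
  unfold out
  omega

theorem in_out_le (has : ∀ x y, adj x y → ¬ adj y x) {S : Finset V} {z : V} (hz : z ∈ S) :
    inn adj S z + out adj S z + 1 ≤ S.card := by
  have h1 := card_mem (adj := adj) has hz
  have h2 : out adj S z ≤ non adj S z := by
    apply card_le_card
    intro a ha
    rw [mem_filter] at ha ⊢
    refine ⟨ha.1, ?_, has _ _ ha.2⟩
    rintro rfl
    exact irr has _ ha.2
  omega

theorem sum_in_out (S T : Finset V) :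
    ∑ z ∈ T, inn adj S z = ∑ z ∈ S, out adj T z := by
  have := Finset.sum_card_bipartiteAbove_eq_sum_card_bipartiteBelow (s := S) (t := T)
    (fun a b => adj a b)
  unfold Finset.bipartiteAbove Finset.bipartiteBelow at this
  unfold inn out
  exact this.symm

theorem sum_in_le (has : ∀ x y, adj x y → ¬ adj y x) (S : Finset V) :
    2 * ∑ z ∈ S, inn adj S z + S.card ≤ S.card * S.card := by
  have h1 : ∑ z ∈ S, (inn adj S z + out adj S z + 1) ≤ ∑ z ∈ S, S.card :=
    sum_le_sum fun z hz => in_out_le has hz
  rw [sum_add_distrib, sum_add_distrib, sum_const, sum_const, smul_eq_mul, smul_eq_mul,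
    ← sum_in_out S S] at h1
  omega

theorem non_union {S T : Finset V} (h : Disjoint S T) (z : V) :
    non adj (S ∪ T) z = non adj S z + non adj T z := by
  unfold non
  rw [filter_union, card_union_of_disjoint]
  exact disjoint_filter_filter h

/-- In-degree of a vertex that is not reached from `v`. -/
theorem key1 (has : ∀ x y, adj x y → ¬ adj y x) {v z : V} (hz : z ∈ lset adj v) :
    (nin adj v).card + (gset adj v).card =
      (nin adj z).card + 1 + (non adj (yset adj v) z + non adj (lset adj v) z) := by
  rw [← non_union (disj_yl v), ← w_eq, ← card_w_ng has v]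
  have hzw : z ∈ wset adj v := by
    rw [w_eq]
    exact mem_union_right _ hz
  rw [card_mem (adj := adj) has hzw]
  have h : inn adj (wset adj v) z = (nin adj z).card := by
    unfold inn nin
    congr 1
    ext a
    rw [mem_filter, mem_filter, mem_w]
    rw [mem_l] at hz
    constructor
    · exact fun h => ⟨mem_univ _, h.2⟩
    · intro h
      refine ⟨⟨?_, ?_⟩, h.2⟩
      · rintro rfl
        exact hz.2.1 h.2
      · intro hva
        exact hz.2.2 a hva h.2
  rw [h]

theorem key2 (has : ∀ x y, adj x y → ¬ adj y x) {v z : V} (hv : IsMin adj v)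
    (hz : z ∈ lset adj v) :
    (lset adj v).card + non adj (yset adj v) z ≤ (gset adj v).card + inn adj (lset adj v) z := by
  have h1 := key1 has hz
  have h2 := card_mem (adj := adj) has hz
  have h3 := hv z
  omega

theorem key2' (has : ∀ x y, adj x y → ¬ adj y x) {v z : V} (hv : IsMin adj v)
    (hz : z ∈ lset adj v) :
    non adj (yset adj v) z + non adj (lset adj v) z + 1 ≤ (gset adj v).card := by
  have h1 := key1 has hz
  have h3 := hv z
  omega

/-- The slack inequality. -/
theorem slack (has : ∀ x y, adj x y → ¬ adj y x) {v : V} (hv : IsMin adj v) :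
    2 * ∑ z ∈ lset adj v, non adj (yset adj v) z +
      (lset adj v).card * (lset adj v).card + (lset adj v).card ≤
      2 * ((gset adj v).card * (lset adj v).card) := by
  have h1 : ∑ z ∈ lset adj v, ((lset adj v).card + non adj (yset adj v) z) ≤
      ∑ z ∈ lset adj v, ((gset adj v).card + inn adj (lset adj v) z) :=
    sum_le_sum fun z hz => key2 has hv hz
  rw [sum_add_distrib, sum_add_distrib, sum_const, sum_const, smul_eq_mul, smul_eq_mul] at h1
  have h2 := sum_in_le (adj := adj) has (lset adj v)
  have h3 : (lset adj v).card * (gset adj v).card = (gset adj v).card * (lset adj v).card :=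
    Nat.mul_comm _ _
  omega

theorem card_eq (has : ∀ x y, adj x y → ¬ adj y x) (v : V) :
    (yset adj v).card + (lset adj v).card = (nin adj v).card + (gset adj v).card := by
  rw [← card_w_yl, card_w_ng has]

/-- Some vertex that is not reached from `v` is an in-neighbour of `v`, when there are more of them
than non-neighbours. -/
theorem exists_in {v : V}
    (h : (gset adj v).card < (lset adj v).card) : ∃ b ∈ lset adj v, adj b v := by
  by_contra hcon
  push Not at hcon
  have : lset adj v ⊆ gset adj v := by
    intro a ha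
    have h1 := hcon a ha
    rw [mem_l] at ha
    rw [mem_g]
    exact ⟨ha.1, ha.2.1, h1⟩
  have := card_le_card this
  omega

end Pool.Agent.SulFew
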