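import Pool.Agent.SulFew.Tight
import Pool.Agent.SulFew.Arith

/-!
# The core of the argument
-/

set_option autoImplicit false
set_option linter.unusedSectionVars false

namespace Pool.Agent.SulFew

open Finset

variable {V : Type*} [Fintype V] [DecidableEq V]
variable {adj : V → V → Prop} [DecidableRel adj]

theorem core (has : ∀ x y, adj x y → ¬ adj y x) {e : ℕ} (he : 1 ≤ e)
    (H : ∀ x, IsMin adj x → (gset adj x).card = e + 2 ∧ (lset adj x).card = 2 * e + 2)
    (v : V) (hv : IsMin adj v) (x : V) (hx : x ∈ lset adj v) (hin : inn adj (lset adj v) x = e)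
    (hvx : v ∉ lset adj x) : False := by
  obtain ⟨hGv, hLv⟩ := H v hv
  -- `x` has minimum in-degree
  have hk2 := key2 has hv hx
  have hnon0 : non adj (yset adj v) x = 0 := by omega
  have hxmin : IsMin adj x := by
    have h1 := key1 has hx
    have h2 := card_mem (adj := adj) has hx
    rw [hin] at h2
    intro u
    have h3 := hv u
    omega
  obtain ⟨hGx, hLx⟩ := H x hxmin
  have hx' := mem_l.1 hx
  -- the sets
  obtain ⟨P, hP⟩ : ∃ P, P = (lset adj v).filter fun w => w ≠ x ∧ ¬ adj x w := ⟨_, rfl⟩
  obtain ⟨O, hO⟩ : ∃ O, O = (lset adj v).filter fun w => adj x w := ⟨_, rfl⟩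
  obtain ⟨J, hJ⟩ : ∃ J, J = (lset adj x).filter fun w => w ∈ yset adj v := ⟨_, rfl⟩
  obtain ⟨Q, hQ⟩ : ∃ Q, Q = P.filter fun w => w ∉ lset adj x := ⟨_, rfl⟩
  obtain ⟨M, hM⟩ : ∃ M, M = P.filter fun w => w ∈ lset adj x := ⟨_, rfl⟩
  have hph : P.card + O.card = 2 * e + 1 := by
    have h1 := card_mem_out (adj := adj) has hx
    unfold out at h1
    rw [← hP, ← hO, hLv] at h1
    omega
  have hal : Q.card + M.card = P.card := by
    rw [hQ, hM, add_comm]
    exact Finset.card_filter_add_card_filter_not (s := P) (fun w => w ∈ lset adj x)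
  have hinP : (P.filter fun w => adj w x).card = e := by
    rw [← hin]
    unfold inn
    congr 1
    ext a
    rw [hP, mem_filter, mem_filter, mem_filter]
    constructor
    · exact fun h => ⟨h.1.1, h.2⟩
    · intro h
      refine ⟨⟨h.1, ?_, has _ _ h.2⟩, h.2⟩
      rintro rfl
      exact irr has _ h.2
  have hep : e ≤ P.card := by
    rw [← hinP]
    exact card_filter_le _ _
  have hQY : ∀ z ∈ Q, z ∈ yset adj x := by
    intro z hz
    rw [hQ, mem_filter, hP, mem_filter] at hz
    have h1 : z ∈ wset adj x := mem_w.2 ⟨hz.1.2.1, hz.1.2.2⟩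
    rw [w_eq, mem_union] at h1
    exact h1.resolve_right hz.2
  -- in-degrees of the elements of `P`
  have hA1 : ∑ z ∈ P, inn adj (lset adj v) z ≤ ∑ z ∈ P, inn adj P z + Q.card * O.card := by
    have h1 : ∀ z ∈ P, inn adj (lset adj v) z ≤
        inn adj P z + if z ∈ lset adj x then 0 else O.card := by
      intro z hz
      have hz' := hz
      rw [hP, mem_filter] at hz'
      have hsub : (lset adj v).filter (fun w => adj w z) ⊆
          P.filter (fun w => adj w z) ∪ O.filter (fun w => adj w z) := by
        intro u hu
        rw [mem_filter] at hu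
        rw [mem_union, mem_filter, mem_filter, hP, hO, mem_filter, mem_filter]
        have hux : u ≠ x := by
          rintro rfl
          exact hz'.2.2 hu.2
        by_cases hxu : adj x u
        · exact Or.inr ⟨⟨hu.1, hxu⟩, hu.2⟩
        · exact Or.inl ⟨⟨hu.1, hux, hxu⟩, hu.2⟩
      have h2 := (card_le_card hsub).trans (card_union_le _ _)
      unfold inn
      refine h2.trans (Nat.add_le_add_left ?_ _)
      split_ifs with hzl
      · rw [Nat.le_zero, card_eq_zero, filter_eq_empty_iff]
        intro u hu huz
        rw [hO, mem_filter] at hu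
        exact (mem_l.1 hzl).2.2 u hu.2 huz
      · exact card_filter_le _ _
    refine (sum_le_sum h1).trans ?_
    rw [sum_add_distrib]
    refine Nat.add_le_add_left (le_of_eq ?_) _
    rw [← sum_filter_add_sum_filter_not P (fun z => z ∈ lset adj x)]
    rw [sum_congr rfl (g := fun _ => 0) (fun z hz => by rw [if_pos (mem_filter.1 hz).2])]
    rw [sum_congr (s₁ := P.filter fun z => ¬ z ∈ lset adj x) rfl (g := fun _ => O.card)
      (fun z hz => by rw [if_neg (mem_filter.1 hz).2])]
    rw [sum_const_zero, sum_const, smul_eq_mul, zero_add, hQ]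
  have hA2 := sum_in_le (adj := adj) has P
  obtain ⟨β, hβ⟩ : ∃ β, β = ∑ y ∈ J, inn adj P y := ⟨_, rfl⟩
  have hA3 : β + e * P.card ≤ ∑ z ∈ P, inn adj (lset adj v) z := by
    rw [hβ, sum_in_out]
    have h1 : ∀ z ∈ P, out adj J z + e ≤ inn adj (lset adj v) z := by
      intro z hz
      have hzl : z ∈ lset adj v := by
        rw [hP, mem_filter] at hz
        exact hz.1
      have h2 := key2 has hv hzl
      have h3 : out adj J z ≤ non adj (yset adj v) z := by
        unfold out non
        apply card_le_card
        intro y hy
        rw [mem_filter, hJ, mem_filter] at hy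
        rw [mem_filter]
        refine ⟨hy.1.2, ?_, has _ _ hy.2⟩
        rintro rfl
        exact irr has _ hy.2
      omega
    have h4 := sum_le_sum h1
    rw [sum_add_distrib, sum_const, smul_eq_mul, Nat.mul_comm P.card e] at h4
    exact h4
  have hA : 2 * β + 2 * e * P.card + P.card ≤ P.card * P.card + 2 * Q.card * O.card := by
    nlinarith
  -- sizes
  have hvP : v ∉ P := by
    intro h
    rw [hP, mem_filter] at h
    exact (mem_l.1 h.1).1 rfl
  have hvQ : v ∉ Q := fun h => hvP (by rw [hQ, mem_filter] at h; exact h.1)
  have hvJ : ∀ y ∈ J, y ≠ v ∧ ¬ adj v y := by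
    intro y hy
    rw [hJ, mem_filter] at hy
    have := mem_y.1 hy.2
    exact ⟨this.1, this.2.1⟩
  have hPJ : ∀ z ∈ P, ∀ y ∈ J, z ≠ y := by
    rintro z hz y hy rfl
    rw [hP, mem_filter] at hz
    rw [hJ, mem_filter] at hy
    exact (Finset.disjoint_left.1 (disj_yl v) hy.2) hz.1
  have hC0 : ∑ y ∈ lset adj x, non adj (yset adj x) y ≤ e + 1 := by
    have h1 := slack has hxmin
    rw [hGx, hLx] at h1
    nlinarith
  have hJsub : J ⊆ lset adj x := by
    rw [hJ]
    exact filter_subset _ _
  have hCJ : ∑ y ∈ J, non adj (yset adj x) y ≤ e + 1 :=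
    (sum_le_sum_of_subset hJsub).trans hC0
  have hDJ : ∀ y ∈ J, non adj (yset adj x) y + non adj (lset adj x) y ≤ e + 1 := by
    intro y hy
    have := key2' has hxmin (hJsub hy)
    omega
  by_cases hxv : adj x v
  · -- `v` is an out-neighbour of `x`
    have hB : 2 * e + 2 ≤ M.card + J.card := by
      rw [← hLx]
      have hsub : lset adj x ⊆ M ∪ J := by
        intro y hy
        have h1 : y ∈ wset adj v := l_sub_w hxv hy
        rw [w_eq, mem_union] at h1
        rw [mem_union]
        have hy' := mem_l.1 hy
        rcases h1 with h1 | h1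
        · right
          rw [hJ, mem_filter]
          exact ⟨hy, h1⟩
        · left
          rw [hM, mem_filter, hP, mem_filter]
          exact ⟨⟨h1, hy'.1, hy'.2.1⟩, hy⟩
      exact (card_le_card hsub).trans (card_union_le _ _)
    have hC : (Q.card + 0) * J.card ≤ e + 1 + β := by
      have h1 : ∀ y ∈ J, Q.card ≤ non adj (yset adj x) y + inn adj P y := by
        intro y hy
        unfold non inn
        refine (card_le_card ?_).trans (card_union_le _ _)
        intro z hz
        have hzP : z ∈ P := by
          rw [hQ, mem_filter] at hz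
          exact hz.1
        rw [mem_union, mem_filter, mem_filter]
        by_cases hzy : adj z y
        · exact Or.inr ⟨hzP, hzy⟩
        · exact Or.inl ⟨hQY z hz, hPJ z hzP y hy, hzy⟩
      have h2 := sum_le_sum h1
      rw [sum_const, smul_eq_mul, sum_add_distrib, ← hβ] at h2
      rw [add_zero, Nat.mul_comm]
      omega
    have hD : (P.card + 0) * J.card ≤ (e + 1) * J.card + β := by
      have h1 : ∀ y ∈ J, P.card ≤ (e + 1) + inn adj P y := by
        intro y hy
        refine le_trans ?_ (Nat.add_le_add_right (hDJ y hy) _)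
        unfold non inn
        have : P ⊆ ((yset adj x).filter (fun w => w ≠ y ∧ ¬ adj w y) ∪
            (lset adj x).filter (fun w => w ≠ y ∧ ¬ adj w y)) ∪ P.filter (fun w => adj w y) := by
          intro z hzP
          rw [mem_union, mem_union, mem_filter, mem_filter, mem_filter]
          by_cases hzy : adj z y
          · exact Or.inr ⟨hzP, hzy⟩
          · left
            by_cases hzl : z ∈ lset adj x
            · exact Or.inr ⟨hzl, hPJ z hzP y hy, hzy⟩
            · refine Or.inl ⟨hQY z ?_, hPJ z hzP y hy, hzy⟩
              rw [hQ, mem_filter]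
              exact ⟨hzP, hzl⟩
        exact (card_le_card this).trans ((card_union_le _ _).trans
          (Nat.add_le_add_right (card_union_le _ _) _))
      have h2 := sum_le_sum h1
      rw [sum_const, smul_eq_mul, sum_add_distrib, sum_const, smul_eq_mul, ← hβ] at h2
      rw [add_zero, Nat.mul_comm P.card, Nat.mul_comm (e + 1)]
      exact h2
    exact arith he hep hph hal hA (by omega) (fun _ => hB) (fun h => absurd h (by omega)) hC hD
  · -- `v` is a second out-neighbour of `x`
    have hvG : v ∈ gset adj x := mem_g.2 ⟨fun h => hx'.1 h.symm, hxv, hx'.2.1⟩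
    have hvY : v ∈ yset adj x := by
      have h1 : v ∈ wset adj x := mem_w.2 ⟨fun h => hx'.1 h.symm, hxv⟩
      rw [w_eq, mem_union] at h1
      exact h1.resolve_right hvx
    obtain ⟨K, hK⟩ : ∃ K, K = (gset adj x).filter fun w => adj v w := ⟨_, rfl⟩
    obtain ⟨R, hR⟩ : ∃ R, R = P.filter fun w => ¬ adj w x := ⟨_, rfl⟩
    have hRcard : e + R.card = P.card := by
      rw [← hinP, hR]
      exact Finset.card_filter_add_card_filter_not (s := P) (fun w => adj w x)
    have hKR : K.card + 1 + R.card ≤ e + 2 := by
      rw [← hGx]
      have hsub : insert v (K ∪ R) ⊆ gset adj x := by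
        intro z hz
        rw [mem_insert, mem_union] at hz
        rcases hz with rfl | hz | hz
        · exact hvG
        · rw [hK, mem_filter] at hz
          exact hz.1
        · rw [hR, mem_filter, hP, mem_filter] at hz
          exact mem_g.2 ⟨hz.1.2.1, hz.1.2.2, hz.2⟩
      have hdis : Disjoint K R := by
        rw [Finset.disjoint_left]
        intro z hz1 hz2
        rw [hK, mem_filter] at hz1
        rw [hR, mem_filter, hP, mem_filter] at hz2
        exact (mem_l.1 hz2.1.1).2.1 hz1.2
      have hvn : v ∉ K ∪ R := by
        rw [mem_union]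
        rintro (h | h)
        · rw [hK, mem_filter] at h
          exact irr has _ h.2
        · rw [hR, mem_filter] at h
          exact hvP h.1
      have h1 := card_le_card hsub
      rw [card_insert_of_notMem hvn, card_union_of_disjoint hdis] at h1
      omega
    have hB : 1 + P.card ≤ M.card + J.card := by
      have hsub : lset adj x ⊆ (M ∪ J) ∪ K := by
        intro y hy
        have hy' := mem_l.1 hy
        have hyv : y ≠ v := by
          rintro rfl
          exact hvx hy
        rw [mem_union, mem_union]
        by_cases hvy : adj v y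
        · right
          rw [hK, mem_filter]
          exact ⟨mem_g.2 ⟨hy'.1, hy'.2.1, hx'.2.2 y hvy⟩, hvy⟩
        · left
          have h1 : y ∈ wset adj v := mem_w.2 ⟨hyv, hvy⟩
          rw [w_eq, mem_union] at h1
          rcases h1 with h1 | h1
          · right
            rw [hJ, mem_filter]
            exact ⟨hy, h1⟩
          · left
            rw [hM, mem_filter, hP, mem_filter]
            exact ⟨⟨h1, hy'.1, hy'.2.1⟩, hy⟩
      have h1 := (card_le_card hsub).trans ((card_union_le _ _).trans
        (Nat.add_le_add_right (card_union_le _ _) _))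
      omega
    have hC : (Q.card + 1) * J.card ≤ e + 1 + β := by
      have h1 : ∀ y ∈ J, Q.card + 1 ≤ non adj (yset adj x) y + inn adj P y := by
        intro y hy
        unfold non inn
        rw [← card_insert_of_notMem hvQ]
        refine (card_le_card ?_).trans (card_union_le _ _)
        intro z hz
        rw [mem_insert] at hz
        rw [mem_union, mem_filter, mem_filter]
        rcases hz with rfl | hz
        · exact Or.inl ⟨hvY, fun h => (hvJ y hy).1 h.symm, (hvJ y hy).2⟩
        have hzP : z ∈ P := by
          rw [hQ, mem_filter] at hz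
          exact hz.1
        by_cases hzy : adj z y
        · exact Or.inr ⟨hzP, hzy⟩
        · exact Or.inl ⟨hQY z hz, hPJ z hzP y hy, hzy⟩
      have h2 := sum_le_sum h1
      rw [sum_const, smul_eq_mul, sum_add_distrib, ← hβ] at h2
      rw [Nat.mul_comm]
      omega
    have hD : (P.card + 1) * J.card ≤ (e + 1) * J.card + β := by
      have h1 : ∀ y ∈ J, P.card + 1 ≤ (e + 1) + inn adj P y := by
        intro y hy
        refine le_trans ?_ (Nat.add_le_add_right (hDJ y hy) _)
        unfold non inn
        rw [← card_insert_of_notMem hvP]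
        have : insert v P ⊆ ((yset adj x).filter (fun w => w ≠ y ∧ ¬ adj w y) ∪
            (lset adj x).filter (fun w => w ≠ y ∧ ¬ adj w y)) ∪ P.filter (fun w => adj w y) := by
          intro z hz
          rw [mem_insert] at hz
          rw [mem_union, mem_union, mem_filter, mem_filter, mem_filter]
          rcases hz with rfl | hzP
          · exact Or.inl (Or.inl ⟨hvY, fun h => (hvJ y hy).1 h.symm, (hvJ y hy).2⟩)
          by_cases hzy : adj z y
          · exact Or.inr ⟨hzP, hzy⟩
          · left
            by_cases hzl : z ∈ lset adj x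
            · exact Or.inr ⟨hzl, hPJ z hzP y hy, hzy⟩
            · refine Or.inl ⟨hQY z ?_, hPJ z hzP y hy, hzy⟩
              rw [hQ, mem_filter]
              exact ⟨hzP, hzl⟩
        exact (card_le_card this).trans ((card_union_le _ _).trans
          (Nat.add_le_add_right (card_union_le _ _) _))
      have h2 := sum_le_sum h1
      rw [sum_const, smul_eq_mul, sum_add_distrib, sum_const, smul_eq_mul, ← hβ] at h2
      rw [Nat.mul_comm (P.card + 1), Nat.mul_comm (e + 1)]
      exact h2
    exact arith he hep hph hal hA le_rfl (fun h => absurd h (by omega)) (fun _ => hB) hC hD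

end Pool.Agent.SulFew
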