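import Pool.Agent.SulFew.Core

/-!
# The main theorem and its sharpness
-/

set_option autoImplicit false
set_option linter.unusedSectionVars false

namespace Pool.Agent.SulFew

open Finset

section
variable {V : Type*} [Fintype V] [DecidableEq V]
variable {adj : V → V → Prop} [DecidableRel adj]

theorem choose_x (has : ∀ x y, adj x y → ¬ adj y x) {e : ℕ} (he : 1 ≤ e) {v : V}
    (hv : IsMin adj v) (hG : (gset adj v).card = e + 2) (hL : (lset adj v).card = 2 * e + 2) :
    ∃ x ∈ lset adj v, inn adj (lset adj v) x = e ∧ v ∉ lset adj x := by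
  by_contra hcon
  push Not at hcon
  obtain ⟨b, hb, hbv⟩ := exists_in (adj := adj) (v := v) (by omega)
  have hge : ∀ z ∈ lset adj v, e ≤ inn adj (lset adj v) z := by
    intro z hz
    have := key2 has hv hz
    omega
  have hbin : inn adj (lset adj v) b ≠ e := by
    intro h
    exact (mem_l.1 (hcon b hb h)).2.1 hbv
  have hI : ∀ z ∈ lset adj v, adj z b → inn adj (lset adj v) z ≠ e := by
    intro z hz hzb h
    exact (mem_l.1 (hcon z hz h)).2.2 b hzb hbv
  have hbn : b ∉ (lset adj v).filter fun w => adj w b := by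
    intro h
    exact irr has _ (mem_filter.1 h).2
  obtain ⟨I, hIdef⟩ : ∃ I, I = insert b ((lset adj v).filter fun w => adj w b) := ⟨_, rfl⟩
  have hIcard : e + 2 ≤ I.card := by
    rw [hIdef, card_insert_of_notMem hbn]
    have h1 := hge b hb
    unfold inn at h1 hbin
    omega
  have hIsub : I ⊆ lset adj v := by
    rw [hIdef]
    intro z hz
    rw [mem_insert, mem_filter] at hz
    rcases hz with rfl | hz
    · exact hb
    · exact hz.1
  have h1 : ∀ z ∈ lset adj v, e + (if z ∈ I then 1 else 0) ≤ inn adj (lset adj v) z := by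
    intro z hz
    have h2 := hge z hz
    split_ifs with hzI
    · have h3 : inn adj (lset adj v) z ≠ e := by
        rw [hIdef, mem_insert, mem_filter] at hzI
        rcases hzI with rfl | hzI
        · exact hbin
        · exact hI z hzI.1 hzI.2
      omega
    · omega
  have h2 := sum_le_sum h1
  rw [sum_add_distrib, sum_const, smul_eq_mul, sum_boole, Nat.cast_id, hL] at h2
  have h3 : (lset adj v).filter (fun z => z ∈ I) = I := by
    ext z
    rw [mem_filter]
    exact ⟨fun h => h.2, fun h => ⟨hIsub h, h⟩⟩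
  rw [h3] at h2
  have h4 := sum_in_le (adj := adj) has (lset adj v)
  rw [hL] at h4
  nlinarith

/-- If every vertex of minimum in-degree of a finite nonempty oriented graph has at most `k`
non-neighbours (`k ≥ 3`), some vertex of minimum in-degree satisfies
`|N-(v)| ≤ |N2+(v)| + (k - 3)`. -/
theorem main [Nonempty V] (has : ∀ x y, adj x y → ¬ adj y x) {k : ℕ} (hk3 : 3 ≤ k)
    (hk : ∀ v, IsMin adj v → (gset adj v).card ≤ k) :
    ∃ v, IsMin adj v ∧ (nin adj v).card ≤ (yset adj v).card + (k - 3) := by
  by_contra hcon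
  push Not at hcon
  obtain ⟨e, rfl⟩ : ∃ e, k = e + 2 := ⟨k - 2, by omega⟩
  have he : 1 ≤ e := by omega
  have h1 : ∀ v, IsMin adj v → (gset adj v).card + e ≤ (lset adj v).card := by
    intro v hv
    have h2 := hcon v hv
    have h3 := card_eq (adj := adj) has v
    omega
  have h2 : ∀ v, IsMin adj v → (lset adj v).card + 1 ≤ 2 * (gset adj v).card := by
    intro v hv
    have h3 := slack has hv
    have h4 := h1 v hv
    by_contra h5
    push Not at h5
    have h6 : 0 < (lset adj v).card := by omega
    have h7 : 2 * (gset adj v).card ≤ (lset adj v).card := by omega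
    have h8 := Nat.mul_le_mul_right (lset adj v).card h7
    rw [Nat.mul_assoc] at h8
    omega
  have h3 : ∀ v, IsMin adj v → 2 * (gset adj v).card ≠ (lset adj v).card + 1 := by
    intro v hv
    refine fun h => tight_false has ?_ v hv h
    intro x hx
    have h4 := h1 x hx
    have h5 := hk x hx
    omega
  have h4 : ∀ v, IsMin adj v → (gset adj v).card = e + 2 ∧ (lset adj v).card = 2 * e + 2 := by
    intro v hv
    have h5 := h1 v hv
    have h6 := h2 v hv
    have h7 := h3 v hv
    have h8 := hk v hv
    omega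
  obtain ⟨v, _, hv⟩ := exists_min_image (univ : Finset V) (fun v => (nin adj v).card)
    univ_nonempty
  have hv' : IsMin adj v := fun u => hv u (mem_univ u)
  obtain ⟨x, hx, hxin, hvx⟩ := choose_x has he hv' (h4 v hv').1 (h4 v hv').2
  exact core has he h4 v hv' x hx hxin hvx

end

/-! ### Sharpness -/

/-- The rotational regular tournament on `2 d + 5` vertices with a sink attached to `d + 1` of
them. -/
def ex (d : ℕ) (i j : Fin (2 * d + 6)) : Prop :=
  (i.1 < j.1 ∧ j.1 ≤ i.1 + d + 2 ∧ j.1 < 2 * d + 5) ∨
  (j.1 + d + 3 ≤ i.1 ∧ i.1 < 2 * d + 5) ∨ (j.1 = 2 * d + 5 ∧ i.1 < d + 1)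

instance (d : ℕ) : DecidableRel (ex d) := fun i j => by unfold ex; infer_instance

theorem ex_has (d : ℕ) : ∀ x y, ex d x y → ¬ ex d y x := by
  intro x y h1 h2
  unfold ex at h1 h2
  omega

theorem ex_in (d : ℕ) (j : Fin (2 * d + 6)) (hj : j.1 < 2 * d + 5) :
    d + 2 ≤ (nin (ex d) j).card := by
  rw [← card_range (d + 2)]
  have hlt : ∀ t, t < d + 2 → (if t < j.1 then j.1 - 1 - t else j.1 + (2 * d + 4) - t) < 2 * d + 6 := by
    intro t ht
    split_ifs <;> omega
  refine card_le_card_of_injOn (fun t => if h : t < d + 2 then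
    (⟨if t < j.1 then j.1 - 1 - t else j.1 + (2 * d + 4) - t, hlt t h⟩ : Fin (2 * d + 6)) else j)
    ?_ ?_
  · intro t ht
    rw [mem_coe, mem_range] at ht
    rw [mem_coe, mem_nin]
    simp only [ht, dif_pos]
    unfold ex
    simp only
    split_ifs <;> omega
  · intro s hs t ht hst
    rw [mem_coe, mem_range] at hs ht
    simp only [hs, ht, dif_pos, Fin.mk.injEq] at hst
    split_ifs at hst <;> omega

theorem ex_sink_in (d : ℕ) :
    (nin (ex d) ⟨2 * d + 5, by omega⟩).card = d + 1 := by
  apply le_antisymm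
  · rw [← card_range (d + 1)]
    refine card_le_card_of_injOn (fun i => i.1) ?_ ?_
    · intro i hi
      rw [mem_coe, mem_nin] at hi
      rw [mem_coe, mem_range]
      unfold ex at hi
      simp only at hi
      show i.1 < d + 1
      omega
    · intro i _ j _ hij
      exact Fin.ext hij
  · rw [← card_range (d + 1)]
    refine card_le_card_of_injOn (fun t => if h : t < d + 1 then
      (⟨t, by omega⟩ : Fin (2 * d + 6)) else ⟨0, by omega⟩) ?_ ?_
    · intro t ht
      rw [mem_coe, mem_range] at ht
      rw [mem_coe, mem_nin]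
      simp only [ht, dif_pos]
      exact Or.inr (Or.inr ⟨rfl, ht⟩)
    · intro s hs t ht hst
      rw [mem_coe, mem_range] at hs ht
      simp only [hs, ht, dif_pos, Fin.mk.injEq] at hst
      exact hst

theorem ex_main (d : ℕ) (v : Fin (2 * d + 6)) (hv : IsMin (ex d) v) :
    (gset (ex d) v).card ≤ d + 4 ∧
      (yset (ex d) v).card + (d + 1) ≤ (nin (ex d) v).card := by
  have hlast : v = ⟨2 * d + 5, by omega⟩ := by
    by_contra hne
    have hlt : v.1 < 2 * d + 5 := by
      have h1 := v.2
      have h2 : v.1 ≠ 2 * d + 5 := fun h => hne (Fin.ext h)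
      omega
    have h1 := ex_in d v hlt
    have h2 := hv ⟨2 * d + 5, by omega⟩
    rw [ex_sink_in] at h2
    omega
  subst hlast
  constructor
  · have h1 := card_w_ng (ex_has d) ⟨2 * d + 5, by omega⟩
    rw [ex_sink_in] at h1
    have h2 : (wset (ex d) ⟨2 * d + 5, by omega⟩).card ≤ 2 * d + 5 := by
      have h3 : wset (ex d) ⟨2 * d + 5, by omega⟩ ⊆ univ.erase ⟨2 * d + 5, by omega⟩ := by
        intro a ha
        rw [mem_w] at ha
        exact mem_erase.2 ⟨ha.1, mem_univ _⟩
      have h4 := card_le_card h3
      rw [card_erase_of_mem (mem_univ _), card_univ, Fintype.card_fin] at h4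
      omega
    omega
  · rw [ex_sink_in]
    have h1 : yset (ex d) ⟨2 * d + 5, by omega⟩ = ∅ := by
      rw [eq_empty_iff_forall_notMem]
      intro a ha
      obtain ⟨_, _, u, hu, _⟩ := mem_y.1 ha
      unfold ex at hu
      simp only at hu
      have := u.2
      omega
    rw [h1, card_empty]
    omega

/-! ### Cardinalities of sets -/

section
variable {V : Type*} [Fintype V] [DecidableEq V]
variable (adj : V → V → Prop) [DecidableRel adj]

theorem ncard_nin (v : V) : {u | adj u v}.ncard = (nin adj v).card := by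
  rw [Set.ncard_eq_toFinset_card']
  congr 1
  ext a
  simp [nin]

theorem ncard_yset (v : V) :
    {w | w ≠ v ∧ ¬ adj v w ∧ ∃ u, adj v u ∧ adj u w}.ncard = (yset adj v).card := by
  rw [Set.ncard_eq_toFinset_card']
  congr 1
  ext a
  simp [yset]

theorem ncard_gset (v : V) :
    {w | w ≠ v ∧ ¬ adj v w ∧ ¬ adj w v}.ncard = (gset adj v).card := by
  rw [Set.ncard_eq_toFinset_card']
  congr 1
  ext a
  simp [gset]

end

end Pool.Agent.SulFew
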