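import Pool.Agent.SulFew.Base

/-!
# The tight case
-/

set_option autoImplicit false
set_option linter.unusedSectionVars false

namespace Pool.Agent.SulFew

open Finset

variable {V : Type*} [Fintype V] [DecidableEq V]
variable {adj : V → V → Prop} [DecidableRel adj]

theorem eq_of_sum {ι : Type*} {s : Finset ι} {f : ι → ℕ} {m : ℕ} (h1 : ∀ i ∈ s, m ≤ f i)
    (h2 : ∑ i ∈ s, f i ≤ m * s.card) : ∀ i ∈ s, f i = m := by
  intro i hi
  by_contra hne
  have hlt : m < f i := lt_of_le_of_ne (h1 i hi) (Ne.symm hne)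
  have : ∑ j ∈ s, m < ∑ j ∈ s, f j := sum_lt_sum h1 ⟨i, hi, hlt⟩
  rw [sum_const, smul_eq_mul] at this
  have h3 : s.card * m = m * s.card := Nat.mul_comm _ _
  omega

theorem eq_of_sum' {ι : Type*} {s : Finset ι} {f : ι → ℕ} {m : ℕ} (h1 : ∀ i ∈ s, f i ≤ m)
    (h2 : m * s.card ≤ ∑ i ∈ s, f i) : ∀ i ∈ s, f i = m := by
  intro i hi
  by_contra hne
  have hlt : f i < m := lt_of_le_of_ne (h1 i hi) hne
  have : ∑ j ∈ s, f j < ∑ j ∈ s, m := sum_lt_sum h1 ⟨i, hi, hlt⟩
  rw [sum_const, smul_eq_mul] at this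
  have h3 : s.card * m = m * s.card := Nat.mul_comm _ _
  omega

/-- If `x → v` then no vertex that `x` does not reach is `v` or an out-neighbour of `v`. -/
theorem l_sub_w {v x y : V} (hxv : adj x v) (hy : y ∈ lset adj x) :
    y ∈ wset adj v := by
  rw [mem_l] at hy
  rw [mem_w]
  refine ⟨?_, hy.2.2 v hxv⟩
  rintro rfl
  exact hy.2.1 hxv

theorem tight_false (has : ∀ x y, adj x y → ¬ adj y x)
    (H : ∀ x, IsMin adj x → (gset adj x).card + 1 ≤ (lset adj x).card ∧
      2 * (gset adj x).card ≤ (lset adj x).card + 2)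
    (v : V) (hv : IsMin adj v) (ht : 2 * (gset adj v).card = (lset adj v).card + 1) : False := by
  obtain ⟨l, hl⟩ : ∃ l, l = (lset adj v).card := ⟨_, rfl⟩
  obtain ⟨c, hc⟩ : ∃ c, c = (gset adj v).card := ⟨_, rfl⟩
  have hH := (H v hv).1
  rw [← hl, ← hc] at hH ht
  have hc2 : 2 ≤ c := by omega
  obtain ⟨e, rfl⟩ : ∃ e, c = e + 1 := ⟨c - 1, by omega⟩
  have hl2 : l = 2 * e + 1 := by omega
  -- all of `Y v` points to all of `L v`
  have hs := slack has hv
  rw [← hl, ← hc, hl2] at hs
  have hS0 : ∑ z ∈ lset adj v, non adj (yset adj v) z = 0 := by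
    have : ∑ z ∈ lset adj v, non adj (yset adj v) z ≤ 0 := by nlinarith
    omega
  rw [sum_eq_zero_iff] at hS0
  have hY : ∀ y ∈ yset adj v, ∀ z ∈ lset adj v, adj y z := by
    intro y hy z hz
    by_contra hn
    have h0 := hS0 z hz
    unfold non at h0
    rw [card_eq_zero, filter_eq_empty_iff] at h0
    refine h0 hy ⟨?_, hn⟩
    rintro rfl
    exact (Finset.disjoint_left.1 (disj_yl v) hy) hz
  -- in-degrees and out-degrees inside `L v`
  have hin : ∀ z ∈ lset adj v, inn adj (lset adj v) z = e := by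
    apply eq_of_sum
    · intro z hz
      have := key2 has hv hz
      omega
    · have := sum_in_le (adj := adj) has (lset adj v)
      rw [← hl, hl2] at this
      rw [← hl, hl2]
      nlinarith
  have hout : ∀ z ∈ lset adj v, out adj (lset adj v) z = e := by
    apply eq_of_sum'
    · intro z hz
      have h1 := in_out_le (adj := adj) has hz
      rw [hin z hz] at h1
      omega
    · rw [← sum_in_out, sum_congr rfl hin, sum_const, smul_eq_mul, Nat.mul_comm]
  obtain ⟨x, hxl, hxv⟩ := exists_in (adj := adj) (v := v) (by omega)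
  -- `x` has minimum in-degree
  have hxmin : IsMin adj x := by
    have h1 := key1 has hxl
    have h2 := card_mem (adj := adj) has hxl
    rw [hin x hxl] at h2
    intro u
    have h3 := hv u
    omega
  -- the non-out-neighbours of `x` in `L v`
  have hP : ((lset adj v).filter fun w => w ≠ x ∧ ¬ adj x w).card = e := by
    have h1 := card_mem_out (adj := adj) has hxl
    rw [hout x hxl] at h1
    omega
  have hPY : ∀ z ∈ lset adj v, z ≠ x → ¬ adj x z → z ∈ yset adj x := by
    intro z hz hzx hxz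
    by_contra hn
    have hzw : z ∈ wset adj x := mem_w.2 ⟨hzx, hxz⟩
    have hzl : z ∈ lset adj x := by
      rw [w_eq, mem_union] at hzw
      exact hzw.resolve_left hn
    rw [mem_l] at hzl
    have hsub : (lset adj v).filter (fun w => adj w z) ⊆
        ((lset adj v).filter fun w => w ≠ x ∧ ¬ adj x w).erase z := by
      intro u hu
      rw [mem_filter] at hu
      rw [mem_erase, mem_filter]
      refine ⟨?_, hu.1, ?_, ?_⟩
      · rintro rfl
        exact irr has _ hu.2
      · rintro rfl
        exact hxz hu.2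
      · intro hxu
        exact hzl.2.2 u hxu hu.2
    have h1 := card_le_card hsub
    have h2 : z ∈ (lset adj v).filter fun w => w ≠ x ∧ ¬ adj x w :=
      mem_filter.2 ⟨hz, hzx, hxz⟩
    rw [card_erase_of_mem h2, hP] at h1
    have h3 := hin z hz
    unfold inn at h3
    omega
  obtain ⟨w, hw⟩ : ((lset adj v).filter fun w => w ≠ x ∧ ¬ adj x w).Nonempty := by
    rw [← card_pos, hP]
    omega
  rw [mem_filter] at hw
  have hwY := hPY w hw.1 hw.2.1 hw.2.2
  have hLx : ∀ y ∈ lset adj x, 1 ≤ non adj (yset adj x) y := by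
    intro y hy
    have h1 : y ∈ wset adj v := l_sub_w hxv hy
    have h2 : y ∈ yset adj v := by
      rw [w_eq, mem_union] at h1
      rcases h1 with h1 | h1
      · exact h1
      · exfalso
        have hy' := mem_l.1 hy
        have := hPY y h1 hy'.1 hy'.2.1
        exact (Finset.disjoint_left.1 (disj_yl x) this) hy
    have h3 : adj y w := hY y h2 w hw.1
    unfold non
    rw [Nat.succ_le_iff, card_pos]
    refine ⟨w, mem_filter.2 ⟨hwY, ?_, has _ _ h3⟩⟩
    rintro rfl
    exact irr has _ h3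
  have hsum : (lset adj x).card ≤ ∑ y ∈ lset adj x, non adj (yset adj x) y := by
    have := sum_le_sum hLx
    rw [sum_const, smul_eq_mul, mul_one] at this
    exact this
  have hsx := slack has hxmin
  obtain ⟨hx1, hx2⟩ := H x hxmin
  obtain ⟨l', hl'⟩ : ∃ l', l' = (lset adj x).card := ⟨_, rfl⟩
  obtain ⟨c', hc'⟩ : ∃ c', c' = (gset adj x).card := ⟨_, rfl⟩
  rw [← hl', ← hc'] at hx1 hx2
  rw [← hl'] at hsum
  rw [← hl', ← hc'] at hsx
  have h5 : 2 * (c' * l') ≤ (l' + 2) * l' := by nlinarith
  nlinarith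

end Pool.Agent.SulFew
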